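import Pool.Agent.Helper49.CF.Upper
import Pool.Agent.Helper49.CF.Lower

/-!
# The largest mean number of cycles of a random cycle-factor of a `d`-regular digraph

`M d (k * d) = k * H_d * (1 + o(1))` as `d → ∞`, uniformly in `k ≥ 2`.

Sketch of the upper bound. Let `n = k d`, let `σ` be a uniformly random cycle-factor of `G` and
let `U` be a random set of `u` vertices and `i` a random element of `U`; think of `U` as the set of
the vertices whose images are not yet revealed, `i` being the next one. The mean number of cycles
is at most the sum over `u` of the probabilities `p_u` that `σ i` is the start `s` of the path off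
`U` that ends at `i`, and `p_u` is the mean of the conditional probability
`b = P(σ i = s | σ off U)`. The mean number of the available images of `i` is
`D_u = 1 + (d - 1) (u - 1) / (n - 1)`, about `1 + u / k`. By the chain rule for the entropy and
by the bound `(d / e) ^ n` of Gurvits and van der Waerden for the number of cycle-factors,
the sum over `u` of the slacks `log D_u - H(σ i | σ off U)` is only `O(k log d)`, and each slack is
the mean of `∑ φ(D_u b_c) / D_u` with `φ(x) = x log x - x + 1` over the available images `c`.
So for most levels all but a small proportion of the conditional probabilities is at most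
`(1 + ε) / D_u`. The start `s` could a priori be one of the few bad images with a large
probability; that this is rare follows by a second look at the path: a random set `T` of about
`δ u` vertices off `U` usually meets a long path, and if it meets it in exactly one vertex `x`,
then `σ x` is the start of the path off `U ∪ T` that ends at `i`, whose conditional probability is
`O(k / u)` outside of a set that is small by the slack at the level `|T|`, for each of the few
vertices `x` for which the start of the path off `U ∪ T` that ends at `x` is bad for `i`.
Hence `p_u ≤ (1 + ε) k / u` for most levels, and the sum is at most `(1 + ε) k log d + o(k log d)`.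
-/

namespace Pool.Agent.Results.MP_3cdeb8_co.UniformLimit

open Pool.Agent.Helper49.CF Finset

/-- `M d (k * d) / (k * H_d) → 1` as `d → ∞`, uniformly in `k ≥ 2`. -/
theorem result (ε : ℝ) (hε : 0 < ε) : ∃ d₀ : ℕ, ∀ d ≥ d₀, ∀ k ≥ 2,
    IsGreatest {x | ∃ G : Fin (k * d) → Fin (k * d) → Prop, Reg G d ∧ Ec G = x}
      (M d (k * d)) ∧
    |M d (k * d) / (k * (harmonic d : ℝ)) - 1| ≤ ε := by
  obtain ⟨d0, hd0⟩ := upper hε
  refine ⟨max d0 2, fun d hd k hk => ?_⟩
  have hd1 : d0 ≤ d := le_trans (le_max_left _ _) hd
  have hd2 : 2 ≤ d := le_trans (le_max_right _ _) hd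
  -- the disjoint union of complete digraphs
  set f : Fin (k * d) → Fin k := fun x => (finProdFinEquiv.symm x).1 with hf
  have hfib : ∀ a, (univ.filter fun j => f j = a).card = d := by
    intro a
    have : (univ.filter fun j => f j = a) =
        (univ : Finset (Fin d)).image fun y => finProdFinEquiv (a, y) := by
      ext j
      simp only [mem_filter, mem_univ, true_and, mem_image, hf]
      constructor
      · intro h
        refine ⟨(finProdFinEquiv.symm j).2, ?_⟩
        rw [← h]
        exact Equiv.apply_symm_apply finProdFinEquiv j
      · rintro ⟨y, rfl⟩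
        rw [Equiv.symm_apply_apply]
    rw [this, card_image_of_injective, card_univ, Fintype.card_fin]
    intro y z h
    have := finProdFinEquiv.injective h
    exact (Prod.ext_iff.1 this).2
  have hreg : Reg (blk f) d := by
    constructor
    · intro v
      refine Eq.trans ?_ (hfib (f v))
      congr 1
      ext w
      simp only [mem_filter, mem_univ, true_and, blk]
      exact eq_comm
    · intro w
      refine Eq.trans ?_ (hfib (f w))
      congr 1
      ext v
      simp only [mem_filter, mem_univ, true_and, blk]
  have hEc : Ec (blk f) = k * (harmonic d : ℝ) := by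
    rw [Ec_blk hfib, Fintype.card_fin]
  have hmem : k * (harmonic d : ℝ) ∈ vals d (k * d) := ⟨blk f, hreg, hEc⟩
  have hfin : (vals d (k * d)).Finite := by
    have : vals d (k * d) ⊆ Set.range (fun G : Fin (k * d) → Fin (k * d) → Prop => Ec G) := by
      rintro x ⟨G, _, rfl⟩
      exact ⟨G, rfl⟩
    exact (Set.finite_range _).subset this
  have hM : M d (k * d) ∈ vals d (k * d) := Set.Nonempty.csSup_mem ⟨_, hmem⟩ hfin
  have hgr : IsGreatest (vals d (k * d)) (M d (k * d)) :=
    ⟨hM, fun x hx => le_csSup hfin.bddAbove hx⟩
  refine ⟨hgr, ?_⟩
  have hk' : (2 : ℝ) ≤ k := by exact_mod_cast hk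
  have hd' : (2 : ℝ) ≤ d := by exact_mod_cast hd2
  have hH : Real.log d ≤ (harmonic d : ℝ) := by
    refine le_trans ?_ (log_add_one_le_harmonic d)
    apply Real.log_le_log (by linarith)
    push_cast
    linarith
  have hlog : 0 < Real.log d := Real.log_pos (by linarith)
  have hkH : 0 < k * (harmonic d : ℝ) := mul_pos (by linarith) (by linarith)
  have hlow : k * (harmonic d : ℝ) ≤ M d (k * d) := hgr.2 hmem
  have hup : M d (k * d) ≤ (1 + ε) * (k * (harmonic d : ℝ)) := by
    obtain ⟨G, hG, hE⟩ := hM
    rw [← hE]
    refine (hd0 d hd1 k (by omega) (Fin (k * d)) _ _ (Fintype.card_fin _) G hG).trans ?_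
    apply mul_le_mul_of_nonneg_left _ (by linarith)
    exact mul_le_mul_of_nonneg_left hH (by linarith)
  rw [abs_le]
  constructor
  · have : 1 ≤ M d (k * d) / (k * (harmonic d : ℝ)) := by
      rw [le_div_iff₀ hkH]; linarith
    linarith
  · have : M d (k * d) / (k * (harmonic d : ℝ)) ≤ 1 + ε := by
      rw [div_le_iff₀ hkH]; exact hup
    linarith

end Pool.Agent.Results.MP_3cdeb8_co.UniformLimit
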